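import Pool.Agent.N98.RM.Hyp

/-!
Radical extensions of a field with a regular model over a noetherian ring, with exponents which are
invertible in the ring: the product with the projective line, and the restriction of the model to
the divisor of the polynomial `z ^ n - g`.

helper808; built on the library of helper98.
-/

set_option autoImplicit false
set_option linter.unusedVariables false
set_option linter.unusedSimpArgs false
set_option linter.unusedSectionVars false

universe u

open Polynomial Pool.Agent.W418.LU2 Pool.Agent.N98.RM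

namespace Pool.Agent.N808.RC

section loc

/-- The local ring of a prime element, with the residue map, and with a uniformizer which is
associated to the prime element. -/
theorem exists_locP {k R0 K : Type u} [CommRing k] [CommRing R0] [IsDomain R0] [WfDvdMonoid R0]
    [Algebra k R0] [Field K] [Algebra k K] (ev : R0 →ₐ[k] K)
    (hsurj : ∀ z : K, ∃ r s : R0, ev s ≠ 0 ∧ z * ev s = ev r)
    (P : R0) (hP : Irreducible P) (hker : ∀ g, ev g = 0 ↔ P ∣ g) (f c : R0) (hf : f = P * c)
    (hc : ev c ≠ 0)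
    (K' : Type u) [Field K'] [Algebra R0 K'] [IsFractionRing R0 K'] [Algebra k K']
    [IsScalarTower k R0 K'] :
    ∃ (Q : Subalgebra k K') (π : Q →ₐ[k] K), Function.Surjective π ∧
      (∀ y : K', y ∈ Q ∨ y⁻¹ ∈ Q) ∧ (∀ b : K', b ∈ Q → pq π b ≠ 0 → b⁻¹ ∈ Q) ∧
      (∀ g : R0, algebraMap _ K' g ∈ Q ∧ pq π (algebraMap _ K' g) = ev g) ∧
      (∀ q ∈ Q, pq π q = 0 → q / algebraMap _ K' f ∈ Q) ∧
      ∀ q ∈ Q, ∃ r s : R0, ev s ≠ 0 ∧ q * algebraMap _ K' s = algebraMap _ K' r := by
  classical
  obtain ⟨Q, π, hQ0, hπ⟩ := exists_Q (K' := K') ev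
  have hgQ : ∀ g : R0, algebraMap R0 K' g ∈ Q := fun g => (hQ0 _).2 ⟨g, 1, by
    rw [map_one]; exact one_ne_zero, by rw [map_one, inv_one, mul_one]⟩
  have hπg : ∀ g : R0, pq π (algebraMap R0 K' g) = ev g := by
    intro g
    rw [pq_of π (hgQ g)]
    exact hπ g (hgQ g)
  have hinj : Function.Injective (algebraMap R0 K') := IsFractionRing.injective R0 K'
  have hne : ∀ s : R0, s ≠ 0 → algebraMap R0 K' s ≠ 0 := fun s hs h =>
    hs (hinj (h.trans (map_zero _).symm))
  have hfrac : ∀ r s : R0, ev s ≠ 0 →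
      algebraMap R0 K' r * (algebraMap R0 K' s)⁻¹ ∈ Q := fun r s hs =>
    (hQ0 _).2 ⟨r, s, hs, rfl⟩
  have hrep : ∀ q ∈ Q, ∃ r s : R0, ev s ≠ 0 ∧
      q = algebraMap R0 K' r * (algebraMap R0 K' s)⁻¹ := by
    intro q hq
    obtain ⟨r, s, hs, rfl⟩ := (hQ0 q).1 hq
    exact ⟨r, s, hs, rfl⟩
  have hs0 : ∀ s : R0, ev s ≠ 0 → s ≠ 0 := by
    rintro s hs rfl
    exact hs (map_zero _)
  have hval : ∀ r s : R0, ev s ≠ 0 →
      pq π (algebraMap R0 K' r * (algebraMap R0 K' s)⁻¹) * ev s = ev r := by
    intro r s hs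
    rw [← hπg s, ← pq_mul π (hfrac r s hs) (hgQ s), mul_assoc,
      inv_mul_cancel₀ (hne s (hs0 s hs)), mul_one, hπg]
  refine ⟨Q, π, ?_, ?_, ?_, fun g => ⟨hgQ g, hπg g⟩, ?_, ?_⟩
  · intro z
    obtain ⟨r, s, hs, h⟩ := hsurj z
    refine ⟨⟨_, hfrac r s hs⟩, ?_⟩
    rw [← pq_of π (hfrac r s hs)]
    exact mul_right_cancel₀ hs ((hval r s hs).trans h.symm)
  · -- totality
    have key : ∀ (a b : R0), a ≠ 0 → b ≠ 0 →
        algebraMap R0 K' a * (algebraMap R0 K' b)⁻¹ ∈ Q ∨
        algebraMap R0 K' b * (algebraMap R0 K' a)⁻¹ ∈ Q := by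
      intro a b ha hb
      obtain ⟨i, a', ha', rfl⟩ := WfDvdMonoid.max_power_factor ha hP
      obtain ⟨j, b', hb', rfl⟩ := WfDvdMonoid.max_power_factor hb hP
      have hf0 := hne P hP.ne_zero
      have ha1 : ev a' ≠ 0 := fun h => ha' ((hker _).1 h)
      have hb1 : ev b' ≠ 0 := fun h => hb' ((hker _).1 h)
      have ha2 := hne a' (hs0 _ ha1)
      have hb2 := hne b' (hs0 _ hb1)
      rcases le_total j i with h | h
      · left
        have e : algebraMap R0 K' (P ^ i * a') * (algebraMap R0 K' (P ^ j * b'))⁻¹ =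
            algebraMap R0 K' (P ^ (i - j) * a') * (algebraMap R0 K' b')⁻¹ := by
          rw [map_mul, map_mul, map_mul, map_pow, map_pow, map_pow, mul_inv]
          have : algebraMap R0 K' P ^ i = algebraMap R0 K' P ^ (i - j) * algebraMap R0 K' P ^ j := by
            rw [← pow_add, Nat.sub_add_cancel h]
          rw [this]
          field_simp
        rw [e]
        exact hfrac _ _ hb1
      · right
        have e : algebraMap R0 K' (P ^ j * b') * (algebraMap R0 K' (P ^ i * a'))⁻¹ =
            algebraMap R0 K' (P ^ (j - i) * b') * (algebraMap R0 K' a')⁻¹ := by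
          rw [map_mul, map_mul, map_mul, map_pow, map_pow, map_pow, mul_inv]
          have : algebraMap R0 K' P ^ j = algebraMap R0 K' P ^ (j - i) * algebraMap R0 K' P ^ i := by
            rw [← pow_add, Nat.sub_add_cancel h]
          rw [this]
          field_simp
        rw [e]
        exact hfrac _ _ ha1
    intro y
    by_cases hy : y = 0
    · left
      rw [hy]
      exact Q.zero_mem
    obtain ⟨a, b, hb, hab⟩ := IsFractionRing.div_surjective R0 y
    have hb0 := nonZeroDivisors.ne_zero hb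
    have ha0 : a ≠ 0 := by
      rintro rfl
      apply hy
      rw [← hab, map_zero, zero_div]
    rcases key a b ha0 hb0 with h | h
    · left
      rw [← hab, div_eq_mul_inv]
      exact h
    · right
      rw [← hab, inv_div, div_eq_mul_inv]
      exact h
  · intro b hb hb0
    obtain ⟨r, s, hs, rfl⟩ := hrep b hb
    have h1 := hval r s hs
    have hr : ev r ≠ 0 := by
      rw [← h1]
      exact mul_ne_zero hb0 hs
    have e : (algebraMap R0 K' r * (algebraMap R0 K' s)⁻¹)⁻¹ =
        algebraMap R0 K' s * (algebraMap R0 K' r)⁻¹ := by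
      rw [mul_inv, inv_inv, mul_comm]
    rw [e]
    exact hfrac _ _ hr
  · intro q hq hq0
    obtain ⟨r, s, hs, rfl⟩ := hrep q hq
    have h1 := hval r s hs
    rw [hq0, zero_mul] at h1
    obtain ⟨r', rfl⟩ := (hker r).1 h1.symm
    have hc0 := hne c (hs0 c hc)
    have hsc : ev (s * c) ≠ 0 := by
      rw [map_mul]
      exact mul_ne_zero hs hc
    have hs1 := hne s (hs0 s hs)
    have e : algebraMap R0 K' (P * r') * (algebraMap R0 K' s)⁻¹ / algebraMap R0 K' f =
        algebraMap R0 K' r' * (algebraMap R0 K' (s * c))⁻¹ := by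
      have := hne P hP.ne_zero
      rw [hf, map_mul, map_mul, map_mul]
      field_simp
    rw [e]
    exact hfrac _ _ hsc
  · intro q hq
    obtain ⟨r, s, hs, rfl⟩ := hrep q hq
    refine ⟨r, s, hs, ?_⟩
    rw [mul_assoc, inv_mul_cancel₀ (hne s (hs0 s hs)), mul_one]

end loc

section cutK

variable {k L K : Type u} [CommRing k] [Field L] [Field K] [Algebra k L] [Algebra k K] [Algebra L K]
  [IsScalarTower k L K]

/-- **Restriction to the divisor of a polynomial** in one variable over `L`. -/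
theorem cutP {w : K} (hwi : IsIntegral L w) (htop : IntermediateField.adjoin L {w} = ⊤)
    (f : L[X]) (hf : aeval w f = 0) (hf' : aeval w (derivative f) ≠ 0)
    (K' : Type u) [Field K'] [Algebra L K'] [Algebra L[X] K'] [IsScalarTower L L[X] K']
    [IsFractionRing L[X] K'] [Algebra k K'] [IsScalarTower k L[X] K'] [IsScalarTower k L K']
    {T I : Type} [Finite T] [Fintype I] (M : LM (⊥ : Subalgebra k K') ⊤ T I)
    (hMf : IsBr M (algebraMap L[X] K' f))
    (hconst : ∀ t, ∀ e : L, ∃ a b : L, algebraMap L K' a ∈ M.A t ∧ algebraMap L K' b ∈ M.A t ∧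
      b ≠ 0 ∧ e = a * b⁻¹)
    (hX : ∀ t, algebraMap L[X] K' X ∈ M.A t ∨ (algebraMap L[X] K' X)⁻¹ ∈ M.A t) :
    ∃ (T' I' : Type) (_ : Finite T') (_ : Fintype I') (M' : LM (⊥ : Subalgebra k K) ⊤ T' I'),
      Frc M' ∧ ∀ g : L[X], aeval w g ≠ 0 → IsBr M (algebraMap L[X] K' g) →
        IsBr M' (aeval w g) := by
  classical
  let P : L[X] := minpoly L w
  have hP : Irreducible P := minpoly.irreducible hwi
  have hker : ∀ g : L[X], aeval w g = 0 ↔ P ∣ g := fun g => minpoly.dvd_iff.symm
  obtain ⟨c, hc⟩ := (hker f).1 hf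
  have hc0 : aeval w c ≠ 0 := by
    intro h0
    apply hf'
    rw [hc, derivative_mul, map_add, map_mul, map_mul, h0, mul_zero, zero_add,
      (hker P).2 dvd_rfl, zero_mul]
  have hev : ∀ z : K, ∃ r s : L[X], (aeval w : L[X] →ₐ[L] K).restrictScalars k s ≠ 0 ∧
      z * (aeval w : L[X] →ₐ[L] K).restrictScalars k s =
        (aeval w : L[X] →ₐ[L] K).restrictScalars k r := by
    intro z
    have hz : z ∈ IntermediateField.adjoin L {w} := by rw [htop]; trivial
    obtain ⟨r, s, rfl⟩ := (IntermediateField.mem_adjoin_simple_iff L z).1 hz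
    by_cases hs : aeval w s = 0
    · refine ⟨0, 1, ?_, ?_⟩
      · rw [map_one]; exact one_ne_zero
      · rw [hs, div_zero, zero_mul, map_zero]
    · refine ⟨r, s, hs, ?_⟩
      exact div_mul_cancel₀ _ hs
  obtain ⟨Q, π, hs, hQ, hinv, hg, hun, hrep⟩ := exists_locP
    ((aeval w : L[X] →ₐ[L] K).restrictScalars k) hev P hP hker f c hc hc0 K'
  have hg1 : ∀ g : L[X], algebraMap L[X] K' g ∈ Q := fun g => (hg g).1
  have hg2 : ∀ g : L[X], pq π (algebraMap L[X] K' g) = aeval w g := fun g => (hg g).2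
  have hf0 : algebraMap L[X] K' f ≠ 0 := hMf.ne
  have hpf : pq π (algebraMap L[X] K' f) = 0 := by
    rw [hg2 f]
    exact hf
  have hdom : ∀ t, M.A t ≤ Q → ∀ q ∈ Q, ∃ a ∈ M.A t, ∃ b ∈ M.A t, pq π b ≠ 0 ∧ q * b = a := by
    intro t ht q hq
    have hne : ∀ {b : K'}, pq π b ≠ 0 → b ≠ 0 := by
      rintro b hb rfl
      exact hb (pq_zero π)
    let W := lo Q.toSubring (M.A t).toSubring
    have hW : ∀ y, y ∈ W ↔ ∃ a ∈ M.A t, ∃ b ∈ M.A t, pq π b ≠ 0 ∧ y * b = a := by
      intro y
      constructor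
      · rintro ⟨a, ha, b, hb, hb0, hbQ, rfl⟩
        exact ⟨a, ha, b, hb, pq_ne π hb0 (ht hb) hbQ, by
          rw [mul_assoc, inv_mul_cancel₀ hb0, mul_one]⟩
      · rintro ⟨a, ha, b, hb, hb0, hab⟩
        refine ⟨a, ha, b, hb, hne hb0, hinv b (ht hb) hb0, ?_⟩
        rw [← hab, mul_assoc, mul_inv_cancel₀ (hne hb0), mul_one]
    have hAW : ∀ a ∈ M.A t, a ∈ W := fun a ha => le_lo _ _ ha
    have hWinv : ∀ b ∈ M.A t, pq π b ≠ 0 → b⁻¹ ∈ W := fun b hb hb0 =>
      inv_mem_lo ht (hAW b hb) (hne hb0) (hinv b (ht hb) hb0)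
    -- constants
    have hWE : ∀ e : L, algebraMap L K' e ∈ W := by
      intro e
      obtain ⟨a, b, ha, hb, hb0, he⟩ := hconst t e
      have hbπ : pq π (algebraMap L K' b) ≠ 0 := by
        have e1 : algebraMap L K' b = algebraMap L[X] K' (C b) :=
          IsScalarTower.algebraMap_apply L L[X] K' b
        rw [e1, hg2, aeval_C]
        exact (_root_.map_ne_zero _).2 hb0
      rw [he, map_mul, map_inv₀]
      exact W.mul_mem (hAW _ ha) (hWinv _ hb hbπ)
    -- the variable
    have hWX : algebraMap L[X] K' X ∈ W := by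
      rcases hX t with h | h
      · exact hAW _ h
      · have h1 : algebraMap L[X] K' X ≠ 0 := by
          intro h0
          exact X_ne_zero (IsFractionRing.injective L[X] K' (h0.trans (map_zero _).symm))
        have h2 : pq π (algebraMap L[X] K' X)⁻¹ ≠ 0 := by
          refine pq_ne π (inv_ne_zero h1) (ht h) ?_
          rw [inv_inv]
          exact hg1 _
        have h3 := hWinv _ h h2
        rwa [inv_inv] at h3
    have hWR : ∀ r : L[X], algebraMap L[X] K' r ∈ W := by
      intro r
      induction r using Polynomial.induction_on' with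
      | add p q hp hq => rw [map_add]; exact W.add_mem hp hq
      | monomial n a =>
        rw [← C_mul_X_pow_eq_monomial, map_mul, map_pow]
        refine W.mul_mem ?_ (W.pow_mem hWX n)
        have e1 : algebraMap L[X] K' (C a) = algebraMap L K' a :=
          (IsScalarTower.algebraMap_apply L L[X] K' a).symm
        rw [e1]
        exact hWE a
    obtain ⟨r, s, hs', hrs⟩ := hrep q hq
    have hs'' : aeval w s ≠ 0 := hs'
    have hsW : (algebraMap L[X] K' s)⁻¹ ∈ W := by
      obtain ⟨a, ha, b, hb, hb0, hab⟩ := (hW _).1 (hWR s)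
      have hb1 : b ≠ 0 := by
        rintro rfl
        exact hb0 (pq_zero π)
      have ha0 : pq π a ≠ 0 := by
        rw [← hab, pq_mul π (hg1 s) (ht hb), hg2 s]
        exact mul_ne_zero hs'' hb0
      have e : (algebraMap L[X] K' s)⁻¹ = b * a⁻¹ := by
        rw [← hab, mul_inv, mul_comm, mul_assoc, inv_mul_cancel₀ hb1, mul_one]
      rw [e]
      exact W.mul_mem (hAW _ hb) (hWinv a ha ha0)
    rw [← hW]
    have hs0 : algebraMap L[X] K' s ≠ 0 := by
      intro h
      apply hs''
      have : s = 0 := IsFractionRing.injective L[X] K' (h.trans (map_zero _).symm)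
      rw [this, map_zero]
    have e : q = algebraMap L[X] K' r * (algebraMap L[X] K' s)⁻¹ := by
      rw [← hrs, mul_assoc, mul_inv_cancel₀ hs0, mul_one]
    rw [e]
    exact W.mul_mem (hWR r) hsW
  obtain ⟨T', I', hT', hI', M', hFr', hM'⟩ := cut π hs hQ hinv (algebraMap L[X] K' f) (hg1 f) hf0
    hpf hun M hMf hdom
  refine ⟨T', I', hT', hI', M', hFr', fun g hg0 hgM => ?_⟩
  have h2 := hM' _ (hg1 g) (by rw [hg2 g]; exact hg0) hgM
  rwa [hg2 g] at h2

end cutK

section step

variable {k L K : Type u} [CommRing k] [Field L] [Field K] [Algebra k L] [Algebra k K] [Algebra L K]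
  [IsScalarTower k L K]

/-- A radical extension of degree prime to the residue characteristics of a field with a regular
model: the generator is a boundary function on a regular model of the extension. -/
theorem radical_step [IsNoetherianRing k] {T I : Type} [Finite T] [Fintype I]
    (M : LM (⊥ : Subalgebra k L) ⊤ T I) (hFr : Frc M) (w : K) (hw0 : w ≠ 0)
    (htop : IntermediateField.adjoin L {w} = ⊤) (n : ℕ) (hn : IsUnit (n : k)) (g : L)
    (hg : IsBr M g) (hw : w ^ n = algebraMap L K g) :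
    ∃ (T' I' : Type) (_ : Finite T') (_ : Fintype I') (M' : LM (⊥ : Subalgebra k K) ⊤ T' I'),
      Frc M' ∧ IsBr M' w ∧ ∀ a, IsBr M a → IsBr M' (algebraMap L K a) := by
  classical
  let K' := FractionRing L[X]
  have hs1 : IsScalarTower k L K' := IsScalarTower.of_algebraMap_eq fun r => rfl
  have hs2 : IsScalarTower k L[X] K' := inferInstance
  have hs3 : IsScalarTower L L[X] K' := inferInstance
  let z : K' := algebraMap L[X] K' X
  have haev : ∀ P : L[X], aeval z P = algebraMap L[X] K' P := by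
    intro P
    have h1 : (aeval z : L[X] →ₐ[L] K') = IsScalarTower.toAlgHom L L[X] K' := by
      apply Polynomial.algHom_ext
      rw [aeval_X]
      rfl
    rw [h1]
    rfl
  have hinj : Function.Injective (algebraMap L[X] K') := IsFractionRing.injective L[X] K'
  have hz : Transcendental L z := by
    rw [transcendental_iff]
    intro P hP
    rw [haev] at hP
    exact hinj (hP.trans (map_zero _).symm)
  have htopz : IntermediateField.adjoin L {z} = ⊤ := by
    rw [eq_top_iff]
    intro y _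
    obtain ⟨a, b, hb, hab⟩ := IsFractionRing.div_surjective L[X] y
    rw [IntermediateField.mem_adjoin_simple_iff]
    exact ⟨a, b, by rw [haev, haev, hab]⟩
  have hz0 : z ≠ 0 := by
    intro h
    apply hz
    rw [h]
    exact isAlgebraic_zero
  have hn0 : n ≠ 0 := ne_zero_of_isUnit (K := K) hn
  obtain ⟨D, hD⟩ := exists_ddz hz htopz
  have hTr : ∀ t b, RegC (adj ((mapLM (K := K') M).A t) (zz z b)).toSubring
      (xx ((mapLM (K := K') M).x t) z b) := fun t b => rg_map M hz t b
  set M0 := prodLM (mapLM (K := K') M) hz0 hTr with hM0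
  have hF0' : Frc M0 := by
    rintro ⟨t, b⟩
    exact frc_adj (hFr t) htopz b
  have hbr0 : ∀ a, IsBr M a → IsBr M0 (algebraMap L K' a) := fun a ha =>
    isBr_prod hz0 hTr (isBr_map ha)
  have hLD0 : ∀ t, LDt M0 t (th k D z) := fun t => ldt_prod M hz0 hTr hD t
  obtain ⟨N, hN, hB⟩ := hbr0 g hg
  have hN0 : N ≠ 0 := ne_zero_of_isUnit (K := K) hN
  set ν := n * N with hνdef
  have hν0 : ν ≠ 0 := mul_ne_zero hn0 hN0
  have hν : IsUnit (ν : k) := by
    rw [hνdef, Nat.cast_mul]
    exact hn.mul hN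
  have hνK : (ν : K') ≠ 0 := natCast_ne_of_isUnit hν
  set G0 : K' := algebraMap L K' g ^ N with hG0def
  set Z : K' := z ^ ν with hZdef
  have hG : IsB M0 G0 := hB
  have hZ : IsB M0 Z := (isB_self hz0 hTr).pow ν
  have hG00 : G0 ≠ 0 := hG.ne
  have hZ0 : Z ≠ 0 := hZ.ne
  -- the polynomial
  set f : L[X] := X ^ ν - C (g ^ N) with hfdef
  have hC : ∀ a : L, algebraMap L[X] K' (C a) = algebraMap L K' a := fun a =>
    (IsScalarTower.algebraMap_apply L L[X] K' a).symm
  have hff : algebraMap L[X] K' f = Z - G0 := by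
    rw [hfdef, map_sub, map_pow, hC, map_pow]
  have hf0 : f ≠ 0 := X_pow_sub_C_ne_zero (Nat.pos_of_ne_zero hν0) _
  have hF0 : Z - G0 ≠ 0 := by
    rw [← hff]
    intro h
    exact hf0 (hinj (h.trans (map_zero _).symm))
  have hw1 : aeval w f = 0 := by
    rw [hfdef, map_sub, map_pow, aeval_X, aeval_C, map_pow, ← hw, ← pow_mul, sub_self]
  have hw2 : aeval w (derivative f) ≠ 0 := by
    rw [hfdef, derivative_sub, derivative_C, sub_zero, derivative_X_pow, map_mul, map_pow, aeval_X,
      aeval_C, map_natCast]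
    exact mul_ne_zero (natCast_ne_of_isUnit (K := K) hν) (pow_ne_zero _ hw0)
  have hwi : IsIntegral L w := ⟨f, monic_X_pow_sub_C _ hν0, hw1⟩
  -- the derivation
  have hθL : ∀ a : L, th k D z (algebraMap L K' a) = 0 := by
    intro a
    rw [th_apply, Derivation.map_algebraMap, mul_zero]
  have hθF : th k D z (Z - G0) = (ν : K') * Z := by
    rw [map_sub, hG0def, ← map_pow (algebraMap L K'), hθL, sub_zero, th_apply, hZdef,
      Derivation.leibniz_pow, hD]
    obtain ⟨m, hm⟩ : ∃ m, ν = m + 1 := ⟨ν - 1, by omega⟩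
    rw [hm, Nat.add_sub_cancel, smul_eq_mul, mul_one, nsmul_eq_mul]
    ring
  -- principalization
  obtain ⟨T1, I1, hT1, hI1, M1, π1, hO1, hcmp⟩ := exists_princ (G := Bool) M0
    (fun b => cond b Z G0) (by
      rintro (_ | _)
      · exact hG
      · exact hZ)
  have hcmp' : ∀ t, Z / G0 ∈ M1.A t ∨ G0 / Z ∈ M1.A t := fun t => hcmp t false true
  -- refinement
  let h : T1 → Bool → K' := fun t b =>
    if G0 / Z ∈ M1.A t then 1 else cond b (Z / G0) ((Z - G0) / G0)
  have h1 : ∀ t b, G0 / Z ∈ M1.A t → h t b = 1 := fun t b ht => if_pos ht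
  have h2 : ∀ t b, G0 / Z ∉ M1.A t → h t b = cond b (Z / G0) ((Z - G0) / G0) :=
    fun t b ht => if_neg ht
  have e0 : (Z - G0) / G0 = Z / G0 - 1 := by
    rw [sub_div, div_self hG00]
  have hmem : ∀ t b, h t b ∈ M1.A t := by
    intro t b
    by_cases ht : G0 / Z ∈ M1.A t
    · rw [h1 t b ht]; exact (M1.A t).one_mem
    · have h3 := (hcmp' t).resolve_right ht
      rw [h2 t b ht]
      cases b
      · change (Z - G0) / G0 ∈ M1.A t
        rw [e0]
        exact (M1.A t).sub_mem h3 (M1.A t).one_mem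
      · exact h3
  have hne : ∀ t b, h t b ≠ 0 := by
    intro t b
    by_cases ht : G0 / Z ∈ M1.A t
    · rw [h1 t b ht]; exact one_ne_zero
    · rw [h2 t b ht]
      cases b
      · exact div_ne_zero hF0 hG00
      · exact div_ne_zero hZ0 hG00
  obtain ⟨M2, hA2, hx2, -⟩ := exists_refine M1 h hmem hne (by
    intro t V hV
    by_cases ht : G0 / Z ∈ M1.A t
    · exact ⟨true, by rw [h1 t true ht, inv_one]; exact V.one_mem⟩
    · by_contra hcon
      push Not at hcon
      have h3 : ∀ b, V.valuation (h t b) < 1 := by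
        intro b
        have h4 : (h t b)⁻¹ ∉ V := hcon b
        rw [← V.valuation_le_one_iff, map_inv₀, not_le] at h4
        have h5 : V.valuation (h t b) ≠ 0 := by
          rw [ne_eq, map_eq_zero]; exact hne t b
        exact (one_lt_inv₀ (zero_lt_iff.2 h5)).1 h4
      have h4 : V.valuation (h t true - h t false) < 1 := Valuation.map_sub_lt _ (h3 _) (h3 _)
      have h5 : h t true - h t false = 1 := by
        rw [h2 t true ht, h2 t false ht]
        change Z / G0 - (Z - G0) / G0 = 1
        rw [e0]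
        ring
      rw [h5, map_one] at h4
      exact lt_irrefl _ h4)
  have hO2 : OvL M1 M2 Prod.fst := ovl_refine M1 h hmem M2 hA2 hx2
  have hO : OvL M0 M2 (π1 ∘ Prod.fst) := hO1.trans hO2
  have hFr2 : Frc M2 := hO.frc hF0'
  have hdich : ∀ p, G0 / Z ∈ M2.A p ∨ ((Z - G0) / G0 ∈ M2.A p ∧ G0 / (Z - G0) ∈ M2.A p) := by
    rintro ⟨t, b⟩
    by_cases ht : G0 / Z ∈ M1.A t
    · exact Or.inl (hO2.le (t, b) ht)
    · have h3 := hmem t b
      have h4 : (h t b)⁻¹ ∈ M2.A (t, b) := by
        rw [hA2]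
        exact inv_mem_rA M1 h (t, b)
      rw [h2 t b ht] at h3 h4
      cases b
      · right
        refine ⟨hO2.le (t, false) h3, ?_⟩
        have h5 : ((Z - G0) / G0)⁻¹ ∈ M2.A (t, false) := h4
        rwa [inv_div] at h5
      · left
        have h5 : (Z / G0)⁻¹ ∈ M2.A (t, true) := h4
        rwa [inv_div] at h5
  -- adding the divisor
  obtain ⟨γZ, hγZ⟩ := hO.bf _ hZ
  obtain ⟨γG, hγG⟩ := hO.bf _ hG
  have hνA : ∀ p, (ν : K') ∈ M2.A p := fun p => (M2.A p).natCast_mem ν
  have hνA' : ∀ p, (ν : K')⁻¹ ∈ M2.A p := by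
    intro p
    refine mem_of_natCast_mul hν ?_
    rw [mul_inv_cancel₀ hνK]
    exact (M2.A p).one_mem
  obtain ⟨I3, hI3, M3, hA3, hB3, hG3, -, -⟩ := exists_addc M2 (Z - G0) hF0 1
    (by rw [Nat.cast_one]; exact isUnit_one) (fun p => G0 / Z ∈ M2.A p)
    (fun p => if G0 / Z ∈ M2.A p then γZ else γG) (fun p => (ν : K') * Z)
    (fun p => th k D z) (fun p => hO.ld p _ (hLD0 _))
    (by
      intro p hp
      have hp' : G0 / Z ∉ M2.A p := hp
      obtain ⟨h3, h4⟩ := (hdich p).resolve_left hp'
      rw [if_neg hp', pow_one]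
      obtain ⟨v, v0, v1, v2, v3⟩ := hγG p
      refine ⟨(Z - G0) / G0 * v, mul_ne_zero (div_ne_zero hF0 hG00) v0,
        (M2.A p).mul_mem h3 v1, ?_, ?_⟩
      · rw [mul_inv, inv_div]
        exact (M2.A p).mul_mem h4 v2
      · rw [mul_assoc, ← v3, div_mul_cancel₀ _ hG00])
    (by
      intro p hp
      have hp' : G0 / Z ∈ M2.A p := hp
      refine ⟨?_, ?_, hθF⟩
      · rw [if_pos hp', pow_one]
        obtain ⟨v, v0, v1, v2, v3⟩ := hγZ p
        refine ⟨(ν : K') * v, mul_ne_zero hνK v0, (M2.A p).mul_mem (hνA p) v1, ?_, ?_⟩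
        · rw [mul_inv]
          exact (M2.A p).mul_mem (hνA' p) v2
        · rw [mul_assoc, ← v3]
      · have e1 : (Z - G0) / ((ν : K') * Z) = (ν : K')⁻¹ * (1 - G0 / Z) := by
          have e2 : 1 - G0 / Z = (Z - G0) / Z := by rw [sub_div, div_self hZ0]
          rw [e2, div_eq_mul_inv, div_eq_mul_inv, mul_inv]
          ring
        rw [e1]
        exact (M2.A p).mul_mem (hνA' p) ((M2.A p).sub_mem (M2.A p).one_mem hp'))
  have hbr3 : ∀ a, IsBr M0 a → IsBr M3 a := by
    intro a ha
    obtain ⟨m, hm, ha⟩ := hO.br ha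
    exact ⟨m, hm, hB3 _ ha⟩
  have hle3 : ∀ p, M0.A (π1 p.1) ≤ M3.A p := by
    intro p
    rw [hA3]
    exact hO.le p
  obtain ⟨T', I', hT', hI', M', hFr', hM'⟩ := cutP (k := k) hwi htop f hw1 hw2 K' M3
    (by
      rw [hff]
      exact ⟨1, by rw [Nat.cast_one]; exact isUnit_one, hG3⟩)
    (by
      intro p e
      obtain ⟨a, ha, b, hb, hb0, he⟩ := hFr (π1 p.1).1 e
      exact ⟨a, b, hle3 p (le_adj _ _ ⟨a, ha, rfl⟩), hle3 p (le_adj _ _ ⟨b, hb, rfl⟩), hb0, he⟩)
    (by
      intro p
      have h4 : zz z (π1 p.1).2 ∈ M3.A p := hle3 p (self_mem_adj _ _)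
      cases hb : (π1 p.1).2
      · rw [hb] at h4
        exact Or.inr h4
      · rw [hb] at h4
        exact Or.inl h4)
  refine ⟨T', I', hT', hI', M', hFr', ?_, fun a ha => ?_⟩
  · have h3 := hM' X (by rw [aeval_X]; exact hw0) (hbr3 _ (isB_self hz0 hTr).br)
    rwa [aeval_X] at h3
  · have h3 := hM' (C a) (by
      rw [aeval_C]
      exact (_root_.map_ne_zero _).2 ha.ne) (by
      rw [hC]
      exact hbr3 _ (hbr0 a ha))
    rwa [aeval_C] at h3

end step

section tower

/-- Products of integral powers of boundary functions. -/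
lemma IsBr.zpow {k K : Type u} [CommRing k] [Field K] [Algebra k K] {R0 R : Subalgebra k K}
    {T I : Type} [Fintype I] {M : LM R0 R T I} {g : K} (h : IsBr M g) (e : ℤ) :
    IsBr M (g ^ e) := by
  rcases le_or_gt 0 e with he | he
  · obtain ⟨m, rfl⟩ := Int.eq_ofNat_of_zero_le he
    rw [zpow_natCast]
    exact h.pow m
  · obtain ⟨m, hm⟩ := Int.eq_ofNat_of_zero_le (show 0 ≤ -e by omega)
    have h2 : e = -(m : ℤ) := by omega
    rw [h2, zpow_neg, zpow_natCast]
    exact (h.pow m).inv

lemma IsBr.prod {k K : Type u} [CommRing k] [Field K] [Algebra k K] {R0 R : Subalgebra k K}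
    {T I : Type} [Fintype I] {M : LM R0 R T I} {J : Type} (s : Finset J) (g : J → K)
    (h : ∀ j ∈ s, IsBr M (g j)) : IsBr M (∏ j ∈ s, g j) := by
  classical
  induction s using Finset.induction_on with
  | empty => rw [Finset.prod_empty]; exact IsB.one.br
  | insert j s hj ih =>
    rw [Finset.prod_insert hj]
    exact (h j (Finset.mem_insert_self _ _)).mul (ih fun i hi => h i (Finset.mem_insert_of_mem hi))

/-- **Towers of tame radical extensions.** -/
theorem radical_tower {k : Type u} [CommRing k] [IsNoetherianRing k] : ∀ (s : ℕ)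
    {L K : Type u} [Field L] [Field K] [Algebra k L] [Algebra k K] [Algebra L K]
    [IsScalarTower k L K] {T I : Type} [Finite T] [Fintype I]
    (M : LM (⊥ : Subalgebra k L) ⊤ T I) (hFr : Frc M) (w : Fin s → K) (hw0 : ∀ j, w j ≠ 0)
    (htop : IntermediateField.adjoin L (Set.range w) = ⊤) (n : Fin s → ℕ)
    (hn : ∀ j, IsUnit (n j : k)) (g : Fin s → L)
    (hg : ∀ j, IsBr M (g j)) (hw : ∀ j, w j ^ n j = algebraMap L K (g j)),
    ∃ (T' I' : Type) (_ : Finite T') (_ : Fintype I') (M' : LM (⊥ : Subalgebra k K) ⊤ T' I'),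
      Frc M' ∧ (∀ j, IsBr M' (w j)) ∧ ∀ a, IsBr M a → IsBr M' (algebraMap L K a) := by
  intro s
  induction s with
  | zero =>
    intro L K _ _ _ _ _ _ T I _ _ M hFr w hw0 htop n hn g hg hw
    have hsur : Function.Surjective (algebraMap L K) := by
      intro y
      have hy : y ∈ IntermediateField.adjoin L (Set.range w) := by rw [htop]; trivial
      have he : Set.range w = ∅ := Set.range_eq_empty w
      rw [he, IntermediateField.adjoin_empty] at hy
      exact IntermediateField.mem_bot.1 hy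
    refine ⟨T, I, inferInstance, inferInstance, mapLM (K := K) M, ?_, fun j => j.elim0,
      fun a ha => isBr_map ha⟩
    intro t y
    obtain ⟨x, rfl⟩ := hsur y
    obtain ⟨a, ha, b, hb, hb0, rfl⟩ := hFr t x
    exact ⟨algebraMap L K a, ⟨a, ha, rfl⟩, algebraMap L K b, ⟨b, hb, rfl⟩,
      (_root_.map_ne_zero _).2 hb0, by rw [map_mul, map_inv₀]⟩
  | succ s ih =>
    intro L K _ _ _ _ _ _ T I _ _ M hFr w hw0 htop n hn g hg hw
    let L1 := IntermediateField.adjoin L {w 0}
    have hs1 : IsScalarTower k L L1 := inferInstance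
    have hs2 : IsScalarTower k L1 K := IsScalarTower.of_algebraMap_eq fun a => by
      have h : algebraMap k L1 a = a • (1 : L1) := Algebra.algebraMap_eq_smul_one a
      have h' : algebraMap k K a = a • (1 : K) := Algebra.algebraMap_eq_smul_one a
      rw [h, h']
      rfl
    let w1 : L1 := ⟨w 0, IntermediateField.mem_adjoin_simple_self L (w 0)⟩
    have hw1 : algebraMap L1 K w1 = w 0 := rfl
    have hw10 : w1 ≠ 0 := by
      intro h
      apply hw0 0
      rw [← hw1, h, map_zero]
    have htop1 : IntermediateField.adjoin L {w1} = ⊤ := by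
      apply IntermediateField.lift_injective
      rw [IntermediateField.lift_adjoin_simple, IntermediateField.lift_top]
    obtain ⟨T1, I1, hT1, hI1, M1, hFr1, h1, h2⟩ := radical_step M hFr w1 hw10 htop1 (n 0) (hn 0)
      (g 0) (hg 0) (by
        apply (algebraMap L1 K).injective
        rw [map_pow, hw1, hw 0]
        rfl)
    obtain ⟨T2, I2, hT2, hI2, M2, hFr2, h3, h4⟩ := ih (L := L1) (K := K) M1 hFr1
      (fun j => w j.succ) (fun j => hw0 _) (by
        rw [← IntermediateField.restrictScalars_eq_top_iff (K := L),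
          IntermediateField.adjoin_adjoin_left, ← htop]
        congr 1
        ext y
        simp only [Set.mem_union, Set.mem_singleton_iff, Set.mem_range]
        constructor
        · rintro (h | ⟨j, h⟩)
          · exact ⟨0, h.symm⟩
          · exact ⟨j.succ, h⟩
        · rintro ⟨j, h⟩
          revert h
          refine Fin.cases ?_ (fun j => ?_) j
          · exact fun h => Or.inl h.symm
          · exact fun h => Or.inr ⟨j, h⟩) (fun j => n j.succ) (fun j => hn _)
      (fun j => algebraMap L L1 (g j.succ)) (fun j => h2 _ (hg _)) (fun j => by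
        rw [hw j.succ]
        rfl)
    refine ⟨T2, I2, hT2, hI2, M2, hFr2, ?_, fun a ha => ?_⟩
    · intro j
      refine Fin.cases ?_ (fun j => h3 j) j
      rw [← hw1]
      exact h4 _ h1
    · exact h4 _ (h2 a ha)

end tower

end Pool.Agent.N808.RC
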