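import Pool.Agent.N98.RM.Rel
import Pool.Agent.N98.Rel
import Pool.Agent.N808.RC.Step

/-!
Models of varieties of bounded degree, with polynomials of bounded degree as boundary functions.

helper808; built on the library of helper98.
-/

set_option autoImplicit false
set_option linter.unusedVariables false
set_option linter.unusedSectionVars false

universe u

namespace Pool.Agent.N808.RC

open MvPolynomial Pool.Agent.N98

section subst

/-- Substitution of the quotients `- V j / W` into a polynomial. -/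
lemma exists_subst {E K : Type*} [Field E] [Field K] [Algebra E K] {N n : ℕ} (x : Fin N → K)
    (y : Fin n → K) (W : MvPolynomial (Fin n) E) (V : Fin N → MvPolynomial (Fin n) E)
    (hV : ∀ j, aeval y (V j) + aeval y W * x j = 0) (δ : ℕ) (hWd : W.totalDegree ≤ δ)
    (hVd : ∀ j, (V j).totalDegree ≤ δ) (d : ℕ) (P : MvPolynomial (Fin N) E)
    (hP : P.totalDegree ≤ d) :
    ∃ H : MvPolynomial (Fin n) E, H.totalDegree ≤ d * δ ∧
      aeval y H = aeval x P * aeval y W ^ d := by
  classical
  have hdeg : ∀ m ∈ P.support, ∑ j, m j ≤ d := by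
    intro m hm
    have h1 := le_totalDegree hm
    rw [Finsupp.sum_fintype _ _ (fun _ => rfl)] at h1
    exact h1.trans hP
  refine ⟨∑ m ∈ P.support, C (coeff m P) * W ^ (d - ∑ j, m j) * ∏ j, (-V j) ^ m j, ?_, ?_⟩
  · refine totalDegree_finsetSum_le fun m hm => ?_
    refine (totalDegree_mul _ _).trans ?_
    have h1 : (C (coeff m P) * W ^ (d - ∑ j, m j)).totalDegree ≤ (d - ∑ j, m j) * δ := by
      refine (totalDegree_mul _ _).trans ?_
      rw [totalDegree_C, zero_add]
      exact (totalDegree_pow _ _).trans (Nat.mul_le_mul_left _ hWd)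
    have h2 : (∏ j, (-V j) ^ m j).totalDegree ≤ (∑ j, m j) * δ := by
      refine (totalDegree_finsetProd _ _).trans ?_
      rw [Finset.sum_mul]
      refine Finset.sum_le_sum fun j _ => ?_
      refine (totalDegree_pow _ _).trans (Nat.mul_le_mul_left _ ?_)
      rw [totalDegree_neg]
      exact hVd j
    calc _ ≤ (d - ∑ j, m j) * δ + (∑ j, m j) * δ := Nat.add_le_add h1 h2
      _ = d * δ := by rw [← add_mul, Nat.sub_add_cancel (hdeg m hm)]
  · rw [aeval_def x P, eval₂_eq', map_sum, Finset.sum_mul]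
    refine Finset.sum_congr rfl fun m hm => ?_
    have h1 : ∀ j, aeval y (-V j) = aeval y W * x j := by
      intro j
      rw [map_neg, neg_eq_iff_add_eq_zero]
      exact hV j
    have h2 : aeval y (∏ j, (-V j) ^ m j) = aeval y W ^ (∑ j, m j) * ∏ j, x j ^ m j := by
      rw [map_prod, ← Finset.prod_pow_eq_pow_sum, ← Finset.prod_mul_distrib]
      refine Finset.prod_congr rfl fun j _ => ?_
      rw [map_pow, h1, mul_pow]
    rw [map_mul, map_mul, aeval_C, map_pow, h2]
    have h3 : aeval y W ^ d = aeval y W ^ (d - ∑ j, m j) * aeval y W ^ (∑ j, m j) := by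
      rw [← pow_add, Nat.sub_add_cancel (hdeg m hm)]
    rw [h3]
    ring

end subst

section spz

variable {k0 E K : Type u} [Field k0] [Field E] [Field K] [Algebra E K]
  [Algebra k0 K] [Algebra k0 E] [IsScalarTower k0 E K] {N r : ℕ} (x : Fin N → K) {σ : Type}
  [Fintype σ] (v : σ → K) (w : Fin r → K) (z : σ → MvPolynomial (Fin r) E)

/-- Projection to a hypersurface: the polynomials of degree at most `d` in the coordinates. -/
theorem spz_poly [Infinite E] (htop : IntermediateField.adjoin E (Set.range x) = ⊤)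
    (hv : AlgebraicIndependent k0 v) (hvx : ∀ i, v i ∈ img k0 x 1)
    (hw : AlgebraicIndependent E w) (hz : ∀ i, aeval w (z i) = v i)
    (hzd : ∀ i, (z i).totalDegree ≤ 1) (δ C0 : ℕ)
    (hδ : ∀ t : ℕ, (Fintype.card σ).factorial * Module.finrank k0 (img k0 x t) ≤
      δ * (t + C0) ^ Fintype.card σ) (hchar : ((Nat.factorial δ : ℕ) : k0) ≠ 0)
    (d : ℕ) (B : Type) (P : B → MvPolynomial (Fin N) E) (hPd : ∀ b, (P b).totalDegree ≤ d) :
    ∃ (y : Fin (r + 1) → K) (F W : MvPolynomial (Fin (r + 1)) E)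
      (H : B → MvPolynomial (Fin (r + 1)) E),
      IntermediateField.adjoin E (Set.range y) = ⊤ ∧ Irreducible F ∧ F.totalDegree ≤ δ ∧
      (∀ g, aeval y g = 0 ↔ F ∣ g) ∧ W.totalDegree ≤ δ ∧ aeval y W ≠ 0 ∧
      (∀ b, (H b).totalDegree ≤ d * δ) ∧ ∀ b, aeval y (H b) = aeval x (P b) * aeval y W ^ d := by
  obtain ⟨y, F, W, V, hF, hFd, hker, hWd, hW, hVd, hV⟩ := spz x v w z hv hvx hw hz hzd δ C0 hδ
    hchar
  have hxV : ∀ j, x j = -aeval y (V j) / aeval y W := by
    intro j
    rw [eq_div_iff hW, eq_neg_iff_add_eq_zero, mul_comm, add_comm]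
    exact hV j
  have hytop : IntermediateField.adjoin E (Set.range y) = ⊤ := by
    rw [eq_top_iff, ← htop, IntermediateField.adjoin_le_iff]
    rintro _ ⟨j, rfl⟩
    rw [SetLike.mem_coe, hxV j]
    have h1 : ∀ g : MvPolynomial (Fin (r + 1)) E, aeval y g ∈
        IntermediateField.adjoin E (Set.range y) := by
      intro g
      have h2 : aeval y g ∈ Algebra.adjoin E (Set.range y) := by
        rw [Algebra.adjoin_range_eq_range_aeval]
        exact ⟨g, rfl⟩
      exact IntermediateField.algebra_adjoin_le_adjoin _ _ h2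
    exact _root_.div_mem (neg_mem (h1 _)) (h1 _)
  choose H hH1 hH2 using fun b => exists_subst x y W V hV δ hWd hVd d (P b) (hPd b)
  exact ⟨y, F, W, H, hytop, hF, hFd, hker, hWd, hW, hH1, hH2⟩

end spz

section rel

variable {k E K : Type u} [CommRing k] [IsNoetherianRing k] [Field E] [Field K] [Algebra E K]
  [Algebra k E] [Algebra k K] [IsScalarTower k E K] {N : ℕ} (x : Fin N → K)

open Pool.Agent.N98.RM in
/-- **Models of varieties of bounded degree** over a noetherian ring: polynomials of bounded degree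
are boundary functions. -/
theorem rel_models_poly (hE : HasRM k E) [Infinite E]
    (htop : IntermediateField.adjoin E (Set.range x) = ⊤) (r : ℕ)
    (htr : Algebra.trdeg E K = r) (δ C0 d : ℕ) (hd : 1 ≤ d)
    (hδ : ∀ t : ℕ, r.factorial * Module.finrank E (img E x t) ≤ δ * (t + C0) ^ r)
    (hchar : IsUnit ((Nat.factorial ((d * δ) ^ 2 ^ r) : ℕ) : k))
    (B : Type) [Finite B] (P : B → MvPolynomial (Fin N) E)
    (hPd : ∀ b, (P b).totalDegree ≤ d) (hb : ∀ b, aeval x (P b) ≠ 0) :
    ∃ (T I : Type) (_ : Finite T) (_ : Fintype I)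
      (M : Pool.Agent.N98.RM.LM (⊥ : Subalgebra k K) ⊤ T I),
      Pool.Agent.N98.RM.Frc M ∧ ∀ b, Pool.Agent.N98.RM.IsBr M (aeval x (P b)) := by
  classical
  obtain ⟨v, hv, hvx⟩ := exists_basis x htop r htr (Fintype.card_fin r)
  have hδ1 : 1 ≤ δ := one_le_of_growth x r δ C0 hδ
  have hD1 : 1 ≤ d * δ := Nat.mul_pos hd hδ1
  have hδD : δ ≤ d * δ := Nat.le_mul_of_pos_left δ hd
  have hchar0 : ((Nat.factorial δ : ℕ) : E) ≠ 0 := by
    have h1 : ((Nat.factorial ((d * δ) ^ 2 ^ r) : ℕ) : E) ≠ 0 := by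
      rw [← map_natCast (algebraMap k E)]
      exact (hchar.map (algebraMap k E)).ne_zero
    have h2 : Nat.factorial δ ∣ Nat.factorial ((d * δ) ^ 2 ^ r) :=
      Nat.factorial_dvd_factorial (hδD.trans (Nat.le_self_pow (by positivity) _))
    intro h
    apply h1
    obtain ⟨c, hc⟩ := h2
    rw [hc, Nat.cast_mul, h, zero_mul]
  obtain ⟨y, F, W, H, hytop, hF, hFd, hker, hWd, hW, hHd, hH⟩ := spz_poly (k0 := E) x v v
    (fun i => X i) htop hv
    (fun i => by
      obtain ⟨j, hj⟩ := hvx i
      rw [hj]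
      exact x_mem_img x j) hv (fun i => aeval_X _ _) (fun i => (totalDegree_X (R := E) i).le) δ C0
    (by rw [Fintype.card_fin]; exact hδ) hchar0 d B P hPd
  obtain ⟨T, I, hT, hI, M, hFr, hM⟩ := Pool.Agent.N98.RM.hyp (n := r + 1) hE (d * δ) hD1 hchar y
    hytop F hF (hFd.trans hδD) hker (Option B) (fun o => o.elim W H)
    (by
      rintro (_ | b)
      · exact hW
      · change aeval y (H b) ≠ 0
        rw [hH b]
        exact mul_ne_zero (hb b) (pow_ne_zero _ hW))
    (by
      rintro (_ | b)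
      · exact hWd.trans hδD
      · exact hHd b)
  refine ⟨T, I, hT, hI, M, hFr, fun b => ?_⟩
  have h1 : aeval x (P b) = aeval y (H b) * (aeval y W ^ d)⁻¹ := by
    rw [hH b, mul_assoc, mul_inv_cancel₀ (pow_ne_zero _ hW), mul_one]
  rw [h1]
  exact (hM (some b)).mul ((hM none).pow d).inv

end rel

section abs

variable {k K : Type u} [Field k] [Field K] [Algebra k K] {N : ℕ} (x : Fin N → K)

open Pool.Agent.W558 Pool.Agent.W418.LCI in
/-- **Models of varieties of bounded degree** over a perfect field, the absolute version: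
polynomials of bounded degree are boundary functions. -/
theorem abs_models_poly [PerfectField k] (htop : IntermediateField.adjoin k (Set.range x) = ⊤)
    (r : ℕ) (hr : 2 ≤ r) (htr : Algebra.trdeg k K = r) (δ C0 d : ℕ) (hd : 1 ≤ d)
    (hδ : ∀ t : ℕ, r.factorial * Module.finrank k (img k x t) ≤ δ * (t + C0) ^ r)
    (hchar : ((Nat.factorial ((d * δ) ^ 2 ^ (r - 2)) : ℕ) : k) ≠ 0)
    (B : Type) [Finite B] (P : B → MvPolynomial (Fin N) k)
    (hPd : ∀ b, (P b).totalDegree ≤ d) (hb : ∀ b, aeval x (P b) ≠ 0) :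
    ∃ (T I : Type) (_ : Finite T) (_ : Fintype I)
      (M : Pool.Agent.W558.LM (⊥ : Subalgebra k K) ⊤ T I),
      Pool.Agent.W558.Frc M ∧ ∀ b, Pool.Agent.N98.IsBr M (aeval x (P b)) := by
  classical
  have hδ1 := one_le_of_growth x r δ C0 hδ
  have hD1 : 1 ≤ d * δ := Nat.mul_pos hd hδ1
  have hδD : δ ≤ d * δ := Nat.le_mul_of_pos_left δ hd
  have hcard : Fintype.card (Fin (r - 2) ⊕ Fin 2) = r := by
    rw [Fintype.card_sum, Fintype.card_fin, Fintype.card_fin]
    omega
  obtain ⟨v, hv, hvx⟩ := exists_basis x htop r htr hcard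
  let u : Fin 2 → K := fun i => v (Sum.inr i)
  let w : Fin (r - 2) → K := fun i => v (Sum.inl i)
  have hvuw : v = Sum.elim w u := by
    funext i
    rcases i with i | i <;> rfl
  let E := IntermediateField.adjoin k (Set.range u)
  obtain ⟨hE, hinf⟩ := plane_field u (hv.comp _ Sum.inr_injective)
  have hw : AlgebraicIndependent E w := by
    rw [hvuw] at hv
    exact ind_field u w hv
  let z : Fin (r - 2) ⊕ Fin 2 → MvPolynomial (Fin (r - 2)) E :=
    Sum.elim X fun i => C ⟨u i, IntermediateField.subset_adjoin k _ ⟨i, rfl⟩⟩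
  have htopE : IntermediateField.adjoin E (Set.range x) = ⊤ := by
    rw [eq_top_iff]
    intro y _
    have h1 : y ∈ IntermediateField.adjoin k (Set.range x) := by rw [htop]; trivial
    have h2 : IntermediateField.adjoin k (Set.range x) ≤
        (IntermediateField.adjoin E (Set.range x)).restrictScalars k := by
      rw [IntermediateField.adjoin_le_iff]
      intro y hy
      exact IntermediateField.subset_adjoin E _ hy
    exact h2 h1
  have hchar0 : ((Nat.factorial δ : ℕ) : k) ≠ 0 := by
    have h2 : Nat.factorial δ ∣ Nat.factorial ((d * δ) ^ 2 ^ (r - 2)) :=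
      Nat.factorial_dvd_factorial (hδD.trans (Nat.le_self_pow (by positivity) _))
    intro h
    apply hchar
    obtain ⟨c, hc⟩ := h2
    rw [hc, Nat.cast_mul, h, zero_mul]
  obtain ⟨y, F, W, H, hytop, hF, hFd, hker, hWd, hW, hHd, hH⟩ := spz_poly (k0 := k) (E := E) x v w
    z htopE hv
    (fun i => by
      obtain ⟨j, hj⟩ := hvx i
      rw [hj]
      exact x_mem_img x j) hw
    (by
      rintro (i | i)
      · exact aeval_X _ _
      · exact aeval_C _ _)
    (by
      rintro (i | i)
      · exact (totalDegree_X (R := E) i).le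
      · exact (totalDegree_C _).trans_le (Nat.zero_le _)) δ C0
    (by rw [hcard]; exact hδ) hchar0 d B (fun b => map (algebraMap k E) (P b))
    (fun b => (Finset.sup_mono (support_map_subset _ _)).trans (hPd b))
  have hPe : ∀ b, aeval x (map (algebraMap k E) (P b)) = aeval x (P b) := fun b =>
    aeval_map_algebraMap E x (P b)
  obtain ⟨T, I, hT, hI, M, hFr, hM⟩ := Pool.Agent.N98.hyp (n := r - 2 + 1) hE (d * δ) hD1 hchar y
    hytop F hF (hFd.trans hδD) hker (Option B) (fun o => o.elim W H)
    (by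
      rintro (_ | b)
      · exact hW
      · change aeval y (H b) ≠ 0
        rw [hH b, hPe b]
        exact mul_ne_zero (hb b) (pow_ne_zero _ hW))
    (by
      rintro (_ | b)
      · exact hWd.trans hδD
      · exact hHd b)
  refine ⟨T, I, hT, hI, M, hFr, fun b => ?_⟩
  have h1 : aeval x (P b) = aeval y (H b) * (aeval y W ^ d)⁻¹ := by
    rw [hH b, hPe b, mul_assoc, mul_inv_cancel₀ (pow_ne_zero _ hW), mul_one]
  rw [h1]
  exact (hM (some b)).mul ((hM none).pow d).inv

end abs

end Pool.Agent.N808.RC
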