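import Pool.Agent.N98.RM.Num
import Pool.Agent.N762.RC.Kum
import Pool.Agent.W418.Z.Reg
import Pool.Agent.N808.RC.Poly

/-!
Regular models over the integers of radical extensions of function fields of bounded degree.

helper808; built on the libraries of helper98 and helper762.
-/

set_option autoImplicit false
set_option linter.unusedVariables false
set_option linter.unusedSectionVars false

open AlgebraicGeometry CategoryTheory Pool.Agent.N98

namespace Pool.Agent.N808.RC

/-- The element `z` is a product of integral powers of the values at `x` of polynomials of degree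
at most `d`. -/
def IsProd (E : Type) {K : Type} [Field E] [Field K] [Algebra E K] {N : ℕ}
    (x : Fin N → K) (d : ℕ) (z : K) : Prop :=
  ∃ (q : ℕ) (P : Fin q → MvPolynomial (Fin N) E) (e : Fin q → ℤ),
    (∀ i, (P i).totalDegree ≤ d) ∧ z = ∏ i, (MvPolynomial.aeval x (P i)) ^ e i

section factor

variable {E K : Type} [Field E] [Field K] [Algebra E K] {N : ℕ} {x : Fin N → K} {d : ℕ}

/-- A common family of polynomials. -/
lemma exists_family {s : ℕ} {g : Fin s → K} (hg : ∀ j, IsProd E x d (g j)) (hg0 : ∀ j, g j ≠ 0) :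
    ∃ (B : Type) (_ : Finite B) (P : B → MvPolynomial (Fin N) E), (∀ b, (P b).totalDegree ≤ d) ∧
      (∀ b, MvPolynomial.aeval x (P b) ≠ 0) ∧ ∀ j, ∃ (q : ℕ) (β : Fin q → Option B)
        (e : Fin q → ℤ), g j = ∏ i, ((β i).elim 1 fun b => MvPolynomial.aeval x (P b)) ^ e i := by
  classical
  choose q P e hP hz using hg
  refine ⟨{i : Σ j, Fin (q j) // MvPolynomial.aeval x (P i.1 i.2) ≠ 0}, inferInstance,
    fun i => P i.1.1 i.1.2, fun i => hP _ _, fun i => i.2, fun j => ⟨q j, fun i =>
      if h : MvPolynomial.aeval x (P j i) ≠ 0 then some ⟨⟨j, i⟩, h⟩ else none, e j, ?_⟩⟩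
  rw [hz j]
  refine Finset.prod_congr rfl fun i _ => ?_
  by_cases h : MvPolynomial.aeval x (P j i) ≠ 0
  · simp only [dif_pos h]
    rfl
  · simp only [dif_neg h]
    have h1 : e j i = 0 := by
      by_contra h2
      apply hg0 j
      rw [hz j]
      refine Finset.prod_eq_zero (Finset.mem_univ i) ?_
      push Not at h
      rw [h, zero_zpow _ h2]
    rw [h1, zpow_zero, zpow_zero]

end factor

/-- Radical extensions of function fields of bounded degree over number fields. -/
theorem exists_num {O F K0 K : Type} [CommRing O] [IsDedekindDomain O] [Module.Finite ℤ O]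
    [Field F] [Algebra O F] [IsFractionRing O F] [CharZero F] [Field K0] [Algebra F K0] [Field K]
    [Algebra K0 K] {m : ℕ} (x : Fin m → K0)
    (htop : IntermediateField.adjoin F (Set.range x) = ⊤) (r : ℕ)
    (htr : Algebra.trdeg F K0 = r) (δ C0 d : ℕ) (hd : 1 ≤ d)
    (hδ : ∀ t : ℕ, r.factorial * Module.finrank F (img F x t) ≤ δ * (t + C0) ^ r)
    {s : ℕ} (w : Fin s → K) (hw0 : ∀ j, w j ≠ 0) (n : Fin s → ℕ) (hn : ∀ j, n j ≠ 0)
    (htopw : IntermediateField.adjoin K0 (Set.range w) = ⊤)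
    (g : Fin s → K0) (hg : ∀ j, IsProd F x d (g j)) (hw : ∀ j, w j ^ n j = algebraMap K0 K (g j)) :
    ∃ (X' : Scheme.{0}) (_ : IsIntegral X') (γ : X' ⟶ Spec (CommRingCat.of ℤ)),
      IsProper γ ∧
      (∀ x : X', IsUnit ((((d * δ) ^ 2 ^ r).factorial * ∏ j, n j : ℕ) : X'.presheaf.stalk x) →
        IsRegularLocalRing (X'.presheaf.stalk x)) ∧
      Nonempty (X'.functionField ≃+* K) := by
  classical
  set N := ((d * δ) ^ 2 ^ r).factorial * ∏ j, n j with hN
  have hN0 : N ≠ 0 := mul_ne_zero (Nat.factorial_ne_zero _)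
    (Finset.prod_ne_zero_iff.2 fun j _ => hn j)
  let ON := Localization.Away ((N : ℕ) : O)
  have hNF : algebraMap O F ((N : ℕ) : O) ≠ 0 := by
    rw [map_natCast]
    exact Nat.cast_ne_zero.2 hN0
  have hNO : ((N : ℕ) : O) ≠ 0 := fun h => hNF (by rw [h, map_zero])
  have hle : Submonoid.powers ((N : ℕ) : O) ≤ nonZeroDivisors O :=
    powers_le_nonZeroDivisors_of_noZeroDivisors hNO
  let φ : ON →+* F := IsLocalization.Away.lift (S := ON) ((N : ℕ) : O) (IsUnit.mk0 _ hNF)
  let _ : Algebra ON F := φ.toAlgebra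
  have h1 : IsScalarTower O ON F := IsScalarTower.of_algebraMap_eq fun a =>
    (IsLocalization.Away.lift_eq ((N : ℕ) : O) (IsUnit.mk0 _ hNF) a).symm
  have h2 : IsDomain ON := IsLocalization.isDomain_localization hle
  have h3 : IsDedekindDomain ON := IsLocalization.isDedekindDomain O hle ON
  have h4 : IsFractionRing ON F :=
    IsFractionRing.isFractionRing_of_isDomain_of_isLocalization
      (Submonoid.powers ((N : ℕ) : O)) ON F
  let _ : Algebra ON K0 := ((algebraMap F K0).comp φ).toAlgebra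
  have h5 : IsScalarTower ON F K0 := IsScalarTower.of_algebraMap_eq fun _ => rfl
  let _ : Algebra ON K := ((algebraMap K0 K).comp (algebraMap ON K0)).toAlgebra
  have h5' : IsScalarTower ON K0 K := IsScalarTower.of_algebraMap_eq fun _ => rfl
  let _ : Algebra O K := ((algebraMap ON K).comp (algebraMap O ON)).toAlgebra
  have h6 : IsScalarTower O ON K := IsScalarTower.of_algebraMap_eq fun _ => rfl
  have h6' : ∀ a : O, algebraMap O K a = algebraMap K0 K (algebraMap F K0 (algebraMap O F a)) := by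
    intro a
    change algebraMap K0 K (algebraMap F K0 (algebraMap ON F (algebraMap O ON a))) = _
    rw [← IsScalarTower.algebraMap_apply O ON F]
  have h7 : Infinite F := inferInstance
  have hu : IsUnit ((N : ℕ) : ON) := by
    have h8 := IsLocalization.Away.algebraMap_isUnit (S := ON) ((N : ℕ) : O)
    rwa [map_natCast] at h8
  have hu0 : IsUnit (((((d * δ) ^ 2 ^ r).factorial : ℕ) : ON) * ((∏ j, n j : ℕ) : ON)) := by
    rw [← Nat.cast_mul]
    exact hu
  have hu1 := isUnit_of_mul_isUnit_left hu0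
  have hu2 := isUnit_of_mul_isUnit_right hu0
  have hu3 : ∀ j, IsUnit ((n j : ℕ) : ON) := by
    rw [Nat.cast_prod] at hu2
    exact IsUnit.prod_univ_iff.1 hu2
  have hg0 : ∀ j, g j ≠ 0 := by
    intro j h
    apply pow_ne_zero (n j) (hw0 j)
    rw [hw j, h, map_zero]
  obtain ⟨B, hB, P, hPd, hP0, hgP⟩ := exists_family hg hg0
  obtain ⟨T, I, hT, hI, M, hFr, hM⟩ := rel_models_poly (k := ON) (E := F) x RM.hasRM_dedekind htop
    r htr δ C0 d hd hδ hu1 B P hPd hP0
  have hgM : ∀ j, RM.IsBr M (g j) := by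
    intro j
    obtain ⟨q, β, e, he⟩ := hgP j
    rw [he]
    refine IsBr.prod _ _ fun i _ => IsBr.zpow ?_ _
    cases β i with
    | none => exact RM.IsB.one.br
    | some b => exact hM b
  obtain ⟨T', I', hT', hI', M', hFr', -, -⟩ := radical_tower s M hFr w hw0 htopw n hu3 g hgM hw
  refine RM.exists_model_Z (O := O) (ON := ON) ?_ N ?_ ?_ M' hFr'
  · intro a b hab
    rw [h6', h6'] at hab
    exact IsFractionRing.injective O F ((algebraMap F K0).injective ((algebraMap K0 K).injective hab))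
  · intro c
    obtain ⟨n, a, h⟩ := IsLocalization.Away.surj ((N : ℕ) : O) c
    exact ⟨n, a, h⟩
  · rw [h6']
    exact (_root_.map_ne_zero _).2 ((_root_.map_ne_zero _).2 hNF)

/-- The residue characteristic. -/
lemma isUnit_bad (R : Type) [CommRing R] [IsLocalRing R] (B : ℕ) {s : ℕ} (n : Fin s → ℕ)
    (hn : ∀ j, n j ≠ 0)
    (h : ringChar (IsLocalRing.ResidueField R) = 0 ∨
      (B < ringChar (IsLocalRing.ResidueField R) ∧
        ∀ j, ¬ ringChar (IsLocalRing.ResidueField R) ∣ n j)) :
    IsUnit ((B.factorial * ∏ j, n j : ℕ) : R) := by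
  rw [Nat.cast_mul, Nat.cast_prod]
  refine (RM.isUnit_factorial R B (h.imp_right fun h => h.1)).mul (IsUnit.prod_univ_iff.2
    fun j => ?_)
  by_contra hcon
  have h1 : ((n j : ℕ) : R) ∈ IsLocalRing.maximalIdeal R := hcon
  rw [← IsLocalRing.residue_eq_zero_iff, map_natCast, ringChar.spec] at h1
  rcases h with h | h
  · rw [h, zero_dvd_iff] at h1
    exact hn j h1
  · exact h.2 j h1

/-- Radical extensions of function fields of bounded degree over finite fields. -/
theorem exists_fin {k K0 K : Type} [Field k] [Finite k] (p : ℕ) [Fact p.Prime] [CharP k p]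
    [Field K0] [Algebra k K0] [Field K] [Algebra K0 K] {m : ℕ} (x : Fin m → K0)
    (htop : IntermediateField.adjoin k (Set.range x) = ⊤) (r : ℕ) (hr : 2 ≤ r)
    (htr : Algebra.trdeg k K0 = r) (δ C0 d : ℕ) (hd : 1 ≤ d)
    (hδ : ∀ t : ℕ, r.factorial * Module.finrank k (img k x t) ≤ δ * (t + C0) ^ r)
    (hp : (d * δ) ^ 2 ^ (r - 2) < p)
    {s : ℕ} (w : Fin s → K) (hw0 : ∀ j, w j ≠ 0) (n : Fin s → ℕ) (hn : ∀ j, ¬ p ∣ n j)
    (htopw : IntermediateField.adjoin K0 (Set.range w) = ⊤)
    (g : Fin s → K0) (hg : ∀ j, IsProd k x d (g j)) (hw : ∀ j, w j ^ n j = algebraMap K0 K (g j)) :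
    ∃ (X' : Scheme.{0}) (_ : IsIntegral X') (γ : X' ⟶ Spec (CommRingCat.of ℤ)),
      IsProper γ ∧
      (∀ x : X',
        (((Module.finrank (IsLocalRing.ResidueField (X'.presheaf.stalk x))
            (IsLocalRing.CotangentSpace (X'.presheaf.stalk x)) : ℕ∞)) : WithBot ℕ∞)
          = ringKrullDim (X'.presheaf.stalk x)) ∧
      Nonempty (X'.functionField ≃+* K) := by
  classical
  have hg0 : ∀ j, g j ≠ 0 := by
    intro j h
    apply pow_ne_zero (n j) (hw0 j)
    rw [hw j, h, map_zero]
  obtain ⟨B, hB, P, hPd, hP0, hgP⟩ := exists_family hg hg0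
  obtain ⟨T, I, hT, hI, M, hFr, hM⟩ := abs_models_poly (k := k) x htop r hr htr δ C0 d hd hδ
    (factorial_ne_zero_of_lt p (Fact.out : p.Prime) hp) B P hPd hP0
  have hgM : ∀ j, IsBr M (g j) := by
    intro j
    obtain ⟨q, β, e, he⟩ := hgP j
    rw [he]
    refine Pool.Agent.N98.IsBr.prod _ _ fun i _ => Pool.Agent.N98.IsBr.zpow ?_ _
    cases β i with
    | none => exact IsB.one.br
    | some b => exact hM b
  let _ : Algebra k K := ((algebraMap K0 K).comp (algebraMap k K0)).toAlgebra
  have hs : IsScalarTower k K0 K := IsScalarTower.of_algebraMap_eq fun _ => rfl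
  obtain ⟨T', I', hT', hI', M', hFr', hM1, hM2⟩ := Pool.Agent.N762.RC.kummer_isBr p M hFr g hgM w
    hw0 n (fun j h => hn j ((CharP.cast_eq_zero_iff k p (n j)).1 h))
    (fun j => Pi.single j 1) (fun j => by
      rw [hw j, Finset.prod_eq_single j]
      · rw [Pi.single_eq_same, zpow_one]
      · intro l _ hl
        rw [Pi.single_eq_of_ne hl, zpow_zero]
      · intro h
        exact absurd (Finset.mem_univ _) h) htopw
  exact Pool.Agent.W418.Z.regular_of_LM M' fun t z => by
      obtain ⟨a, ha, b, hb, hb0, rfl⟩ := hFr' t z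
      exact ⟨a, ha, b, hb, hb0, (div_eq_mul_inv _ _).symm⟩

end Pool.Agent.N808.RC
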